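import Pool.Agent.W827.BW.Stm

set_option autoImplicit false
open MeasureTheory ProbabilityTheory Filter Topology

namespace Pool.Agent.W427.BW

open Pool.Agent.W827.BW

section indep
variable {E : Type}

/-- sigma-algebra generated by the coordinates in `I`. -/
@[reducible] def cs (I : Set E) : MeasurableSpace (E → Bool) :=
  ⨆ i ∈ I, MeasurableSpace.comap (fun ω : E → Bool => ω i) inferInstance

theorem cs_mono {I J : Set E} (h : I ⊆ J) : cs I ≤ cs J :=
  biSup_mono (fun _ hi => h hi)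

theorem cs_coord {I : Set E} {e : E} (he : e ∈ I) (b : Bool) :
    MeasurableSet[cs I] {ω : E → Bool | ω e = b} := by
  have h : MeasurableSpace.comap (fun ω : E → Bool => ω e) inferInstance ≤ cs I :=
    le_iSup₂_of_le e he le_rfl
  apply h
  exact ⟨{b}, MeasurableSet.singleton b, by ext; simp⟩

theorem cs_le (I : Set E) : cs I ≤ (MeasurableSpace.pi : MeasurableSpace (E → Bool)) :=
  iSup₂_le fun i _ => (measurable_pi_apply i).comap_le

instance (p : unitInterval) : IsProbabilityMeasure (siteMeasure E p) := by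
  unfold siteMeasure; infer_instance

theorem iIndep_coord (p : unitInterval) :
    iIndep (fun i : E => MeasurableSpace.comap (fun ω : E → Bool => ω i) inferInstance)
      (siteMeasure E p) := by
  have := iIndepFun_infinitePi (ι := E) (Ω := fun _ => Bool)
    (P := fun _ => bernoulliMeasure true false p) (X := fun _ b => b) (by fun_prop)
  exact this

theorem indep_cs (p : unitInterval) {I J : Set E} (h : Disjoint I J) :
    Indep (cs I) (cs J) (siteMeasure E p) :=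
  indep_iSup_of_disjoint (fun i => (measurable_pi_apply i).comap_le) (iIndep_coord p) h

theorem coord_prob (p : unitInterval) (e : E) :
    (siteMeasure E p).real {ω | ω e = false} = 1 - (p : ℝ) := by
  have h1 : {ω : E → Bool | ω e = false} = Set.pi (({e} : Finset E) : Set E)
      (fun _ => {false}) := by
    ext ω
    simp
  rw [h1, measureReal_def, siteMeasure,
    Measure.infinitePi_pi _ (fun _ _ => MeasurableSet.singleton _), Finset.prod_singleton,
    ← measureReal_def, bernoulliMeasure_real_apply_of_notMem_of_mem] <;> simp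

/-- an event determined by the coordinates in `I`, of probability at least `c` -/
structure Ev (p : unitInterval) (I : Set E) (A : Set (E → Bool)) (c : ℝ) : Prop where
  meas : MeasurableSet[cs I] A
  le : c ≤ (siteMeasure E p).real A
  nn : 0 ≤ c

theorem Ev.inter {p : unitInterval} {I J K : Set E} {A B : Set (E → Bool)} {c d : ℝ}
    (h1 : Ev p I A c) (h2 : Ev p J B d) (hd : Disjoint I J) (hI : I ⊆ K) (hJ : J ⊆ K) :
    Ev p K (A ∩ B) (c * d) where
  meas := @MeasurableSet.inter _ (cs K) _ _ (cs_mono hI _ h1.meas) (cs_mono hJ _ h2.meas)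
  le := by
    have := (Indep_iff _ _ _).1 (indep_cs p hd) _ _ h1.meas h2.meas
    rw [measureReal_def, this, ENNReal.toReal_mul, ← measureReal_def, ← measureReal_def]
    exact mul_le_mul h1.le h2.le h2.nn measureReal_nonneg
  nn := mul_nonneg h1.nn h2.nn

theorem ev_coord (p : unitInterval) {I : Set E} {e : E} (he : e ∈ I) :
    Ev p I {ω | ω e = false} (1 - (p : ℝ)) where
  meas := cs_coord he false
  le := (coord_prob p e).ge
  nn := by linarith [p.2.2]

/-- no event of a sequence of independent events -/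
theorem none_le (p : unitInterval) (J : ℕ → Set E) (R : ℕ → Set (E → Bool)) (c : ℝ)
    (hR : ∀ k, Ev p (J k) (R k) c) (hJ : ∀ k l, k < l → Disjoint (J k) (J l)) (n : ℕ) :
    (siteMeasure E p).real (⋂ k ∈ Finset.range n, (R k)ᶜ) ≤ (1 - c) ^ n := by
  have hc1 : c ≤ 1 := (hR 0).le.trans measureReal_le_one
  induction n with
  | zero => simp
  | succ n ih =>
    have e : (⋂ k ∈ Finset.range (n + 1), (R k)ᶜ) =
        (⋂ k ∈ Finset.range n, (R k)ᶜ) ∩ (R n)ᶜ := by
      rw [Finset.range_add_one, Finset.set_biInter_insert, Set.inter_comm]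
    rw [e]
    have hA : MeasurableSet[cs (⋃ k ∈ Finset.range n, J k)] (⋂ k ∈ Finset.range n, (R k)ᶜ) := by
      refine Finset.measurableSet_biInter _ fun k hk => ?_
      refine cs_mono ?_ _ (@MeasurableSet.compl _ _ (cs (J k)) (hR k).meas)
      exact Set.subset_biUnion_of_mem (u := fun k => J k) hk
    have hdisj : Disjoint (⋃ k ∈ Finset.range n, J k) (J n) := by
      rw [Set.disjoint_iUnion₂_left]
      intro k hk
      exact hJ k n (Finset.mem_range.1 hk)
    have hB : MeasurableSet[cs (J n)] (R n)ᶜ := @MeasurableSet.compl _ _ (cs (J n)) (hR n).meas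
    have h1 := (Indep_iff _ _ _).1 (indep_cs p hdisj) _ _ hA hB
    have h2 := probReal_add_probReal_compl (μ := siteMeasure E p) (cs_le _ _ (hR n).meas)
    have h3 := (hR n).le
    rw [measureReal_def, h1, ENNReal.toReal_mul, ← measureReal_def, ← measureReal_def, pow_succ]
    exact mul_le_mul ih (by linarith) measureReal_nonneg (pow_nonneg (by linarith) _)

theorem ae_of_none (p : unitInterval) (J : ℕ → Set E) (R : ℕ → Set (E → Bool)) (c : ℝ)
    (hc : 0 < c)
    (hR : ∀ k, Ev p (J k) (R k) c) (hJ : ∀ k l, k < l → Disjoint (J k) (J l)) :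
    ∀ᵐ ω ∂(siteMeasure E p), ∃ k, ω ∈ R k := by
  have hc1 : c ≤ 1 := (hR 0).le.trans measureReal_le_one
  have h1 : (siteMeasure E p).real {ω | ¬ ∃ k, ω ∈ R k} = 0 := by
    have hle : ∀ n, (siteMeasure E p).real {ω | ¬ ∃ k, ω ∈ R k} ≤ (1 - c) ^ n := by
      intro n
      refine (measureReal_mono ?_ (measure_ne_top _ _)).trans (none_le p J R c hR hJ n)
      intro ω hω
      simp only [Set.mem_iInter]
      intro k _ hk
      exact hω ⟨k, hk⟩
    have hlim := tendsto_pow_atTop_nhds_zero_of_lt_one (r := 1 - c) (by linarith) (by linarith)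
    exact le_antisymm (ge_of_tendsto' hlim hle) measureReal_nonneg
  rw [ae_iff]
  rw [measureReal_def, ENNReal.toReal_eq_zero_iff] at h1
  exact h1.resolve_right (measure_ne_top _ _)

end indep

/-! ### crossings -/

theorem anc {D : ℕ} (hD : 2 ≤ D) {w : ℤ → ℤ} {a b k m : ℤ}
    (hm : ∀ t, a ≤ t → t ≤ b → 0 ≤ w t + m) (ha : w a + m = 0) {β : ℤ → ℤ} (h0 : β a = k)
    (hN : ∀ t, a ≤ t → t < b → Nest D w t (β t) (β (t + 1))) :
    ∀ t, a ≤ t → t ≤ b → β t / (D : ℤ) ^ (w t + m).toNat = k := by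
  intro t hat
  induction t, hat using Int.leInduction with
  | base =>
    intro _
    rw [ha, h0]
    simp
  | succ t hat ih =>
    intro htb
    have ih' := ih (by omega)
    have h1 := hm t hat (by omega)
    have h2 := hm (t + 1) (by omega) htb
    have hDpos : (0 : ℤ) ≤ D := by positivity
    rcases hN t hat (by omega) with ⟨hw, hd⟩ | ⟨hw, hd⟩
    · have h3 : (w (t + 1) + m).toNat = (w t + m).toNat + 1 := by omega
      rw [h3, pow_succ', ← Int.ediv_ediv_of_nonneg hDpos, hd]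
      exact ih'
    · have h3 : (w t + m).toNat = (w (t + 1) + m).toNat + 1 := by omega
      rw [h3, pow_succ', ← Int.ediv_ediv_of_nonneg hDpos, hd] at ih'
      exact ih'

theorem cross_meas (D : ℤ) (w : ℤ → ℤ) (a b k : ℤ) (hab : a < b) (I : Set (ℤ × ℤ))
    (hI : ∀ β : ℤ → ℤ, β a = k → β b = k →
      (∀ t, a ≤ t → t < b → Nest D w t (β t) (β (t + 1))) →
      ∀ t, a < t → t < b → (t, β t) ∈ I) :
    MeasurableSet[cs I] (Cross D w a b k) := by
  classical
  let ex : (↥(Finset.Icc a b) → ℤ) → ℤ → ℤ := fun f t =>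
    if h : t ∈ Finset.Icc a b then f ⟨t, h⟩ else 0
  have h1 : Cross D w a b k = ⋃ f : (↥(Finset.Icc a b) → ℤ), {ω | (ex f a = k ∧ ex f b = k ∧
      (∀ t, a ≤ t → t < b → Nest D w t (ex f t) (ex f (t + 1)))) ∧
      ∀ t, a < t → t < b → ω (t, ex f t) = false} := by
    ext ω
    simp only [Cross, Set.mem_ofPred_eq, Set.mem_iUnion]
    constructor
    · rintro ⟨β, hβa, hβb, hN, hω⟩
      have hex : ∀ t, a ≤ t → t ≤ b → ex (fun x => β x.1) t = β t := by
        intro t h1 h2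
        have : t ∈ Finset.Icc a b := Finset.mem_Icc.mpr ⟨h1, h2⟩
        simp only [ex, this, dif_pos]
      refine ⟨fun x => β x.1, ⟨?_, ?_, ?_⟩, ?_⟩
      · rw [hex a le_rfl hab.le, hβa]
      · rw [hex b hab.le le_rfl, hβb]
      · intro t h1 h2
        rw [hex t h1 h2.le, hex (t + 1) (by omega) (by omega)]
        exact hN t h1 h2
      · intro t h1 h2
        rw [hex t h1.le h2.le]
        exact hω t h1 h2
    · rintro ⟨f, ⟨hβa, hβb, hN⟩, hω⟩
      exact ⟨ex f, hβa, hβb, hN, hω⟩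
  rw [h1]
  refine @MeasurableSet.iUnion _ _ (cs I) _ _ fun f => ?_
  by_cases hf : ex f a = k ∧ ex f b = k ∧
      (∀ t, a ≤ t → t < b → Nest D w t (ex f t) (ex f (t + 1)))
  · have h2 : {ω : ℤ × ℤ → Bool | (ex f a = k ∧ ex f b = k ∧
        (∀ t, a ≤ t → t < b → Nest D w t (ex f t) (ex f (t + 1)))) ∧
        ∀ t, a < t → t < b → ω (t, ex f t) = false} =
        ⋂ t ∈ Finset.Ioo a b, {ω | ω (t, ex f t) = false} := by
      ext ω
      simp only [Set.mem_ofPred_eq, Set.mem_iInter, Finset.mem_Ioo]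
      constructor
      · intro h t ht
        exact h.2 t ht.1 ht.2
      · intro h
        exact ⟨hf, fun t h1 h2 => h t ⟨h1, h2⟩⟩
    rw [h2]
    refine Finset.measurableSet_biInter _ fun t ht => ?_
    have ht' := Finset.mem_Ioo.mp ht
    exact cs_coord (hI (ex f) hf.1 hf.2.1 hf.2.2 t ht'.1 ht'.2) false
  · have h2 : {ω : ℤ × ℤ → Bool | (ex f a = k ∧ ex f b = k ∧
        (∀ t, a ≤ t → t < b → Nest D w t (ex f t) (ex f (t + 1)))) ∧
        ∀ t, a < t → t < b → ω (t, ex f t) = false} = ∅ := by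
      ext ω
      simp only [Set.mem_ofPred_eq, Set.mem_empty_iff_false, iff_false]
      exact fun h => hf h.1
    rw [h2]
    exact @MeasurableSet.empty _ (cs I)

/-! ### elementary facts on `uu` -/

theorem uu_pos {m : ℕ} (hm : 1 ≤ m) : 1 ≤ uu m := by
  obtain ⟨n, rfl⟩ : ∃ n, m = n + 1 := ⟨m - 1, by omega⟩
  simp [uu]

theorem uu_succ (m : ℕ) : uu (m + 1) = 3 * uu m + 1 := rfl

theorem uu_lt : StrictMono uu := by
  apply strictMono_nat_of_lt_succ
  intro m
  rw [uu_succ]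
  omega

/-- the rows between `lo` and `hi`, ancestor `j` -/
def II (D m : ℕ) (j lo hi : ℤ) : Set (ℤ × ℤ) :=
  {x | lo ≤ x.1 ∧ x.1 ≤ hi ∧ x.2 / (D : ℤ) ^ (ww x.1 + m).toNat = j}

theorem II_disj {D m : ℕ} {j lo mid hi : ℤ} : Disjoint (II D m j lo mid) (II D m j (mid + 1) hi) := by
  rw [Set.disjoint_left]
  rintro x ⟨-, h1, -⟩ ⟨h2, -, -⟩
  omega

theorem seg {p : unitInterval} {D m : ℕ} {j lo mid hi : ℤ} {A B : Set (ℤ × ℤ → Bool)} {c d : ℝ}
    (h1 : Ev p (II D m j lo mid) A c) (h2 : Ev p (II D m j (mid + 1) hi) B d)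
    (hlo : lo ≤ mid + 1) (hhi : mid ≤ hi) : Ev p (II D m j lo hi) (A ∩ B) (c * d) := by
  refine h1.inter h2 II_disj ?_ ?_
  · rintro x ⟨a1, a2, a3⟩
    exact ⟨a1, by omega, a3⟩
  · rintro x ⟨a1, a2, a3⟩
    exact ⟨by omega, a2, a3⟩

/-- `m`-level facts -/
theorem ww_ge (h1 : S_EXC) (h2 : S_EXCB) {m : ℕ} (hm : 1 ≤ m) (t : ℤ) (ht1 : -(3 * uu m : ℤ) ≤ t)
    (ht2 : t ≤ 3 * uu m) : 0 ≤ ww t + m := by
  obtain ⟨e1, e2, e3, w1, w2, w3, w4⟩ := h1 m hm
  have f1 := h2 _ _ _ e1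
  have f2 := h2 _ _ _ e2
  have f3 := h2 _ _ _ e3
  rcases eq_or_lt_of_le ht1 with h | h
  · rw [← h]; omega
  rcases lt_trichotomy t (-(uu m : ℤ)) with h' | h' | h'
  · have := f1.2.2 t h h'
    omega
  · rw [h']; omega
  rcases lt_trichotomy t (uu m : ℤ) with h'' | h'' | h''
  · have := f2.2.2 t h' h''
    omega
  · rw [h'']; omega
  rcases eq_or_lt_of_le ht2 with h3 | h3
  · rw [h3]; omega
  · have := f3.2.2 t h'' h3
    omega

/-- the path event of level `m` -/
def PE (D : ℤ) (m : ℕ) (j : ℤ) : Set (ℤ × ℤ → Bool) :=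
  {ω | ω (-(3 * uu m : ℤ), j) = false} ∩ (Cross D ww (-(3 * uu m : ℤ)) (-(uu m : ℤ)) j ∩
    ({ω | ω (-(uu m : ℤ), j) = false} ∩ (Cross D ww (-(uu m : ℤ)) (uu m) j ∩
    ({ω | ω ((uu m : ℤ), j) = false} ∩ (Cross D ww (uu m) (3 * uu m) j ∩
    {ω | ω ((3 * uu m : ℤ), j) = false})))))

theorem ev_cross (h1 : S_EXC) (h2 : S_EXCB) (h3 : S_REL) {D : ℕ} {p : unitInterval} (hD : 2 ≤ D)
    (hp : (1 - (1 - (p : ℝ)) ^ 4 / 8) ^ D ≤ 1 / 2) {m : ℕ} (hm : 1 ≤ m) (j a b : ℤ)
    (hE : Exc ww a b) (ha : -(3 * uu m : ℤ) ≤ a) (hb : b ≤ 3 * uu m) (hwa : ww a = -m) :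
    Ev p (II D m j (a + 1) (b - 1)) (Cross D ww a b j) (1 / 2) where
  meas := by
    have hab := (h2 _ _ _ hE).1
    apply cross_meas _ _ _ _ _ hab
    intro β hβa hβb hN t hat htb
    refine ⟨by show a + 1 ≤ t; omega, by show t ≤ b - 1; omega, ?_⟩
    exact anc hD (m := m) (fun t h4 h5 => ww_ge h1 h2 hm t (by omega) (by omega)) (by omega)
      hβa hN t hat.le htb.le
  le := h3 D ww p hD hp a b hE j
  nn := by norm_num

theorem ev_PE (h1 : S_EXC) (h2 : S_EXCB) (h3 : S_REL) {D : ℕ} {p : unitInterval} (hD : 2 ≤ D)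
    (hp : (1 - (1 - (p : ℝ)) ^ 4 / 8) ^ D ≤ 1 / 2) {m : ℕ} (hm : 1 ≤ m) (j : ℤ) :
    Ev p (II D m j (-(3 * uu m : ℤ)) (3 * uu m)) (PE D m j) ((1 - (p : ℝ)) ^ 4 / 8) := by
  obtain ⟨e1, e2, e3, w1, w2, w3, w4⟩ := h1 m hm
  have hu : (1 : ℤ) ≤ uu m := by exact_mod_cast uu_pos hm
  have cc : ∀ a : ℤ, ww a = -m → Ev p (II D m j a a) {ω | ω (a, j) = false} (1 - (p : ℝ)) := by
    intro a ha
    apply ev_coord
    refine ⟨le_rfl, le_rfl, ?_⟩
    show j / (D : ℤ) ^ (ww a + m).toNat = j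
    rw [ha]
    simp
  have x1 := cc _ w1
  have x2 := cc _ w2
  have x3 := cc _ w3
  have x4 := cc _ w4
  have y1 := ev_cross h1 h2 h3 hD hp hm j _ _ e1 (by omega) (by omega) w1
  have y2 := ev_cross h1 h2 h3 hD hp hm j _ _ e2 (by omega) (by omega) w2
  have y3 := ev_cross h1 h2 h3 hD hp hm j _ _ e3 (by omega) (by omega) w3
  have z3 : Ev p (II D m j ((uu m : ℤ) + 1) (3 * uu m)) _ _ :=
    seg y3 (by rw [sub_add_cancel]; exact x4) (by omega) (by omega)
  have z2 : Ev p (II D m j (uu m : ℤ) (3 * uu m)) _ _ := seg x3 z3 (by omega) (by omega)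
  have z1 : Ev p (II D m j (-(uu m : ℤ) + 1) (3 * uu m)) _ _ :=
    seg y2 (by rw [sub_add_cancel]; exact z2) (by omega) (by omega)
  have z0 : Ev p (II D m j (-(uu m : ℤ)) (3 * uu m)) _ _ := seg x2 z1 (by omega) (by omega)
  have v1 : Ev p (II D m j (-(3 * uu m : ℤ) + 1) (3 * uu m)) _ _ :=
    seg y1 (by rw [sub_add_cancel]; exact z0) (by omega) (by omega)
  have v0 : Ev p (II D m j (-(3 * uu m : ℤ)) (3 * uu m)) _ _ := seg x1 v1 (by omega) (by omega)
  have e : (1 - (p : ℝ)) ^ 4 / 8 = (1 - (p : ℝ)) * (1 / 2 * ((1 - (p : ℝ)) * (1 / 2 *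
      ((1 - (p : ℝ)) * (1 / 2 * (1 - (p : ℝ))))))) := by ring
  rw [e]
  exact v0

/-- gluing -/
theorem PE_sub (D : ℤ) {m : ℕ} (hm : 1 ≤ m) (j : ℤ) : PE D m j ⊆ Path D ww (3 * uu m) j := by
  have hu : (1 : ℤ) ≤ uu m := by exact_mod_cast uu_pos hm
  rintro ω ⟨c1, ⟨β1, a1, a2, a3, a4⟩, c2, ⟨β2, b1, b2, b3, b4⟩, c3, ⟨β3, d1, d2, d3, d4⟩, c4⟩
  simp only [Set.mem_ofPred_eq] at c1 c2 c3 c4
  obtain ⟨β, g1, g2, g3⟩ : ∃ β : ℤ → ℤ, (∀ t, t ≤ -(uu m : ℤ) → β t = β1 t) ∧
      (∀ t, -(uu m : ℤ) < t → t ≤ uu m → β t = β2 t) ∧ ∀ t, (uu m : ℤ) < t → β t = β3 t := by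
    refine ⟨fun t => if t ≤ -(uu m : ℤ) then β1 t else if t ≤ uu m then β2 t else β3 t,
      ?_, ?_, ?_⟩
    · intro t ht
      simp only [ht, if_true]
    · intro t ht ht'
      simp only [not_le.mpr ht, ht', if_true, if_false]
    · intro t ht
      have : ¬ t ≤ -(uu m : ℤ) := by omega
      simp only [this, not_le.mpr ht, if_false]
  refine ⟨β, ?_, ?_, ?_, ?_⟩
  · rw [g1 _ (by omega)]
    exact a1
  · rw [g3 _ (by omega)]
    exact d2
  · intro t ht1 ht2
    rcases lt_trichotomy t (-(uu m : ℤ)) with h | h | h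
    · rw [g1 t (by omega), g1 (t + 1) (by omega)]
      exact a3 t ht1 h
    · rw [g1 t (by omega), g2 (t + 1) (by omega) (by omega)]
      have h5 : β1 t = β2 t := by rw [h, a2, b1]
      rw [h5]
      exact b3 t (by omega) (by omega)
    · rcases lt_trichotomy t (uu m : ℤ) with h' | h' | h'
      · rw [g2 t (by omega) (by omega), g2 (t + 1) (by omega) (by omega)]
        exact b3 t (by omega) (by omega)
      · rw [g2 t (by omega) (by omega), g3 (t + 1) (by omega)]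
        have h5 : β2 t = β3 t := by rw [h', b2, d1]
        rw [h5]
        exact d3 t (by omega) (by omega)
      · rw [g3 t (by omega), g3 (t + 1) (by omega)]
        exact d3 t (by omega) (by omega)
  · intro t ht1 ht2
    rcases eq_or_lt_of_le ht1 with h0 | h0
    · rw [g1 t (by omega), ← h0, a1]
      exact c1
    rcases lt_trichotomy t (-(uu m : ℤ)) with h | h | h
    · rw [g1 t (by omega)]
      exact a4 t h0 h
    · rw [g1 t (by omega), h, a2]
      exact c2
    · rcases lt_trichotomy t (uu m : ℤ) with h' | h' | h'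
      · rw [g2 t (by omega) (by omega)]
        exact b4 t h h'
      · rw [g2 t (by omega) (by omega), h', b2]
        exact c3
      · rw [g3 t (by omega)]
        rcases eq_or_lt_of_le ht2 with h6 | h6
        · rw [h6, d2]
          exact c4
        · exact d4 t h' h6

/-- the coordinates of level `m` -/
def JJ (D m : ℕ) : Set (ℤ × ℤ) :=
  {x | ((x.1 = uu (m + 1) ∨ x.1 = -(uu (m + 1) : ℤ)) ∧ (x.2 = 0 ∨ x.2 = -1)) ∨
    (-(3 * uu m : ℤ) ≤ x.1 ∧ x.1 ≤ 3 * uu m ∧
      (x.2 / (D : ℤ) ^ (ww x.1 + m).toNat = 1 ∨ x.2 / (D : ℤ) ^ (ww x.1 + m).toNat = -2))}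

theorem JJ_disj (h1 : S_EXC) (h2 : S_EXCB) {D : ℕ} (hD : 2 ≤ D) {m m' : ℕ} (hm : 1 ≤ m)
    (hmm : m < m') : Disjoint (JJ D m) (JJ D m') := by
  rw [Set.disjoint_left]
  rintro ⟨t, i⟩ hx hx'
  simp only [JJ, Set.mem_ofPred_eq] at hx hx'
  have hu1 : (uu (m + 1) : ℤ) = 3 * uu m + 1 := by rw [uu_succ]; push_cast; ring
  have hu2 : (uu (m' + 1) : ℤ) = 3 * uu m' + 1 := by rw [uu_succ]; push_cast; ring
  have hu3 : (uu m : ℤ) < uu m' := by exact_mod_cast uu_lt hmm
  have hu0 : (1 : ℤ) ≤ uu m := by exact_mod_cast uu_pos hm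
  have hD' : (2 : ℤ) ≤ D := by exact_mod_cast hD
  rcases hx' with ⟨h3, -⟩ | ⟨h3, h4, h5⟩
  · rcases hx with ⟨h6, -⟩ | ⟨h6, h7, -⟩ <;> omega
  · -- `i / D ^ e'` is `0` or `-1`
    have key : i / (D : ℤ) ^ (ww t + m').toNat = 0 ∨ i / (D : ℤ) ^ (ww t + m').toNat = -1 := by
      rcases hx with ⟨h6, h7 | h7⟩ | ⟨h6, h7, h8⟩
      · left
        rw [h7]
        simp
      · right
        rw [h7]
        exact Int.ediv_eq_neg_one_of_neg_of_le (by norm_num)
          (by
            have : (0 : ℤ) < (D : ℤ) ^ (ww t + m').toNat := by positivity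
            omega)
      · have h9 := ww_ge h1 h2 hm t h6 h7
        have h10 : (ww t + m').toNat = (ww t + m).toNat + (m' - m) := by omega
        have hp0 : (0 : ℤ) ≤ (D : ℤ) ^ (ww t + m).toNat := by positivity
        have hp1 : (2 : ℤ) ≤ (D : ℤ) ^ (m' - m) := by
          calc (2 : ℤ) ≤ D := hD'
            _ = (D : ℤ) ^ 1 := (pow_one _).symm
            _ ≤ (D : ℤ) ^ (m' - m) := pow_le_pow_right₀ (by omega) (by omega)
        rw [h10, pow_add, ← Int.ediv_ediv_of_nonneg hp0]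
        rcases h8 with h8 | h8
        · left
          rw [h8]
          exact Int.ediv_eq_zero_of_lt (by norm_num) (by omega)
        · right
          rw [h8]
          exact Int.ediv_eq_neg_one_of_neg_of_le (by norm_num) (by omega)
    omega

/-- the ring event of level `m` -/
def RR (D : ℤ) (m : ℕ) : Set (ℤ × ℤ → Bool) :=
  ({ω | ω ((uu (m + 1) : ℤ), 0) = false} ∩ ({ω | ω ((uu (m + 1) : ℤ), -1) = false} ∩
    ({ω | ω (-(uu (m + 1) : ℤ), 0) = false} ∩ {ω | ω (-(uu (m + 1) : ℤ), -1) = false}))) ∩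
  (PE D m 1 ∩ PE D m (-2))

theorem RR_sub (D : ℤ) {m : ℕ} (hm : 1 ≤ m) : RR D m ⊆ Ring D ww m := by
  rintro ω ⟨⟨a1, a2, a3, a4⟩, b1, b2⟩
  exact ⟨⟨⟨a1, a2, a3, a4⟩, PE_sub D hm 1 b1⟩, PE_sub D hm (-2) b2⟩

theorem ev_RR (h1 : S_EXC) (h2 : S_EXCB) (h3 : S_REL) {D : ℕ} {p : unitInterval} (hD : 2 ≤ D)
    (hp : (1 - (1 - (p : ℝ)) ^ 4 / 8) ^ D ≤ 1 / 2) {m : ℕ} (hm : 1 ≤ m) :
    Ev p (JJ D m) (RR D m) ((1 - (p : ℝ)) ^ 12 / 64) := by
  have hu : (1 : ℤ) ≤ uu m := by exact_mod_cast uu_pos hm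
  have hu1 : (uu (m + 1) : ℤ) = 3 * uu m + 1 := by rw [uu_succ]; push_cast; ring
  set H : ℤ := (uu (m + 1) : ℤ) with hH
  -- the hubs
  have y4 := ev_coord p (I := {((-H, -1) : ℤ × ℤ)}) (Set.mem_singleton _)
  have y3 := (ev_coord p (I := {((-H, 0) : ℤ × ℤ)}) (Set.mem_singleton _)).inter y4
    (K := {((-H, 0) : ℤ × ℤ), (-H, -1)}) (by simp) (by simp) (by simp)
  have y2 := (ev_coord p (I := {((H, -1) : ℤ × ℤ)}) (Set.mem_singleton _)).inter y3
    (K := {((H, -1) : ℤ × ℤ), (-H, 0), (-H, -1)}) (by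
      simp only [Set.disjoint_singleton_left, Set.mem_insert_iff, Set.mem_singleton_iff,
        Prod.mk.injEq, not_or]
      constructor <;> omega) (by simp) (by simp)
  have y1 := (ev_coord p (I := {((H, 0) : ℤ × ℤ)}) (Set.mem_singleton _)).inter y2
    (K := {((H, 0) : ℤ × ℤ), (H, -1), (-H, 0), (-H, -1)}) (by
      simp only [Set.disjoint_singleton_left, Set.mem_insert_iff, Set.mem_singleton_iff,
        Prod.mk.injEq, not_or]
      refine ⟨by omega, by omega, by omega⟩) (by simp) (by simp)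
  -- the paths
  have z1 := ev_PE h1 h2 h3 hD hp hm 1
  have z2 := ev_PE h1 h2 h3 hD hp hm (-2)
  have z := z1.inter z2 (K := II D m 1 (-(3 * uu m : ℤ)) (3 * uu m) ∪
    II D m (-2) (-(3 * uu m : ℤ)) (3 * uu m)) (by
      rw [Set.disjoint_left]
      rintro x ⟨-, -, a⟩ ⟨-, -, b⟩
      omega) Set.subset_union_left Set.subset_union_right
  have fin := y1.inter z (K := JJ D m) (by
      rw [Set.disjoint_left]
      rintro ⟨t, i⟩ hx hy
      simp only [Set.mem_insert_iff, Set.mem_singleton_iff, Prod.mk.injEq] at hx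
      rcases hy with ⟨a, b, -⟩ | ⟨a, b, -⟩
      · simp only at a b
        rcases hx with h | h | h | h <;> omega
      · simp only at a b
        rcases hx with h | h | h | h <;> omega) (by
      rintro ⟨t, i⟩ hx
      simp only [Set.mem_insert_iff, Set.mem_singleton_iff, Prod.mk.injEq] at hx
      left
      simp only
      rcases hx with h | h | h | h <;> omega) (by
      rintro x (⟨a, b, c⟩ | ⟨a, b, c⟩)
      · right
        exact ⟨a, b, Or.inl c⟩
      · right
        exact ⟨a, b, Or.inr c⟩)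
  have e : (1 - (p : ℝ)) ^ 12 / 64 = (1 - (p : ℝ)) * ((1 - (p : ℝ)) * ((1 - (p : ℝ)) *
      (1 - (p : ℝ)))) * ((1 - (p : ℝ)) ^ 4 / 8 * ((1 - (p : ℝ)) ^ 4 / 8)) := by ring
  rw [e]
  exact fin

theorem t_RING (h1 : S_EXC) (h2 : S_EXCB) (h3 : S_REL) : S_RING := by
  intro D p hD hp1 hp
  rw [ae_all_iff]
  intro M
  have hp1' : (p : ℝ) < 1 := hp1
  have h := ae_of_none p (fun k => JJ D (M + 1 + k)) (fun k => RR D (M + 1 + k))
    ((1 - (p : ℝ)) ^ 12 / 64) (by
      have : 0 < 1 - (p : ℝ) := by linarith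
      positivity) (fun k => ev_RR h1 h2 h3 hD hp (by omega))
    (fun k l hkl => JJ_disj h1 h2 hD (by omega) (by omega))
  filter_upwards [h] with ω hω
  obtain ⟨k, hk⟩ := hω
  exact ⟨M + 1 + k, by omega, by omega, RR_sub D (by omega) hk⟩

end Pool.Agent.W427.BW
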